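import Pool.Agent.MP_caba0b_al.H43.Iface

/-! The semidirect products of the torus of rank two with finite cyclic groups; the torus of
rank two is not an amalgamation base. -/

namespace Pool.Agent.MP_caba0b_al.H16

open Pool.Agent.MP_caba0b_al.H43

universe u

abbrev TT := Circle × Circle

/-- a continuous automorphism of the torus of order dividing `n + 1` -/
structure Aut (n : ℕ) where
  α : MulAut TT
  cont : Continuous α
  ord : α ^ (n + 1) = 1

namespace Aut

variable {n : ℕ} (a : Aut n)

/-- the action of the cyclic group -/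
noncomputable def hom : Multiplicative (ZMod (n + 1)) →* MulAut TT where
  toFun k := a.α ^ (Multiplicative.toAdd k).val
  map_one' := by simp
  map_mul' k l := by
    rw [toAdd_mul, ZMod.val_add, ← pow_eq_pow_mod _ a.ord, pow_add]

lemma cont_pow (m : ℕ) : Continuous (a.α ^ m : MulAut TT) := by
  induction m with
  | zero => exact continuous_id
  | succ m ih =>
    rw [pow_succ]
    exact ih.comp a.cont

lemma cont_hom : Continuous fun p : ZMod (n + 1) × TT => a.hom (Multiplicative.ofAdd p.1) p.2 :=
  continuous_prod_of_discrete_left.2 fun k => a.cont_pow k.val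

/-- the semidirect product -/
def G : Type := TT ⋊[a.hom] Multiplicative (ZMod (n + 1))

noncomputable instance : Group a.G :=
  inferInstanceAs (Group (TT ⋊[a.hom] Multiplicative (ZMod (n + 1))))

/-- coordinates -/
def co : a.G ≃ TT × ZMod (n + 1) where
  toFun g := (SemidirectProduct.left g, Multiplicative.toAdd (SemidirectProduct.right g))
  invFun p := (⟨p.1, Multiplicative.ofAdd p.2⟩ : TT ⋊[a.hom] Multiplicative (ZMod (n + 1)))
  left_inv _ := rfl
  right_inv _ := rfl

noncomputable instance : TopologicalSpace a.G := TopologicalSpace.induced a.co inferInstance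

lemma ind : Topology.IsInducing a.co := ⟨rfl⟩

/-- coordinates are a homeomorphism -/
noncomputable def ho : a.G ≃ₜ TT × ZMod (n + 1) := a.co.toHomeomorphOfIsInducing a.ind

instance : CompactSpace a.G := a.ho.symm.compactSpace

instance : T2Space a.G := a.ho.symm.t2Space

lemma c1 : Continuous fun g : a.G => (a.co g).1 := continuous_fst.comp a.ind.continuous

lemma c2 : Continuous fun g : a.G => (a.co g).2 := continuous_snd.comp a.ind.continuous

instance : IsTopologicalGroup a.G where
  continuous_mul := by
    refine a.ind.continuous_iff.2 (Continuous.prodMk ?_ ?_)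
    · exact (a.c1.comp continuous_fst).mul
        (a.cont_hom.comp ((a.c2.comp continuous_fst).prodMk (a.c1.comp continuous_snd)))
    · exact (a.c2.comp continuous_fst).add (a.c2.comp continuous_snd)
  continuous_inv := by
    refine a.ind.continuous_iff.2 (Continuous.prodMk ?_ ?_)
    · exact a.cont_hom.comp (a.c2.neg.prodMk a.c1.inv)
    · exact a.c2.neg

/-- the torus inside the semidirect product -/
noncomputable def ι : TT →* a.G := SemidirectProduct.inl

/-- the generator of the cyclic group -/
noncomputable def f : a.G := SemidirectProduct.inr (φ := a.hom) (Multiplicative.ofAdd 1)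

lemma ι_cont : Continuous a.ι :=
  a.ind.continuous_iff.2 (continuous_id.prodMk continuous_const)

lemma ι_inj : Function.Injective a.ι := SemidirectProduct.inl_injective

lemma hom_one : a.hom (Multiplicative.ofAdd 1) = a.α := by
  have h : a.hom (Multiplicative.ofAdd 1) = a.α ^ (1 % (n + 1)) := by
    rw [← ZMod.val_one_eq_one_mod]; rfl
  rw [h, ← pow_eq_pow_mod _ a.ord, pow_one]

lemma conj (x : TT) : a.f * a.ι x * a.f⁻¹ = a.ι (a.α x) := by
  have h := SemidirectProduct.inl_aut (φ := a.hom) (Multiplicative.ofAdd 1) x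
  rw [a.hom_one, map_inv] at h
  exact h.symm

lemma f_pow (j : ℕ) :
    a.f ^ j = SemidirectProduct.inr (φ := a.hom) (Multiplicative.ofAdd (j : ZMod (n + 1))) := by
  have h := map_pow (SemidirectProduct.inr (φ := a.hom)) (Multiplicative.ofAdd 1) j
  rw [← ofAdd_nsmul, nsmul_one] at h
  exact h.symm

lemma f_ord : a.f ^ (n + 1) = 1 := by
  rw [f_pow, ZMod.natCast_self, ofAdd_zero, map_one]
  rfl

lemma gen (g : a.G) : ∃ (x : TT) (j : ℕ), g = a.ι x * a.f ^ j := by
  refine ⟨(a.co g).1, (a.co g).2.val, ?_⟩
  rw [f_pow, ZMod.natCast_zmod_val]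
  exact (SemidirectProduct.inl_left_mul_inr_right
    (g : TT ⋊[a.hom] Multiplicative (ZMod (n + 1)))).symm

end Aut

/-- the rotation of order four -/
noncomputable def rot : Aut 3 where
  α :=
    { toFun := fun p => (p.2⁻¹, p.1)
      invFun := fun p => (p.2, p.1⁻¹)
      left_inv := fun p => by simp
      right_inv := fun p => by simp
      map_mul' := fun p q => by simp [mul_comm] }
  cont := continuous_snd.inv.prodMk continuous_fst
  ord := by
    ext p <;> simp [pow_succ]

theorem ex : ExStmt :=
  ⟨rot.G, inferInstance, inferInstance, inferInstance, inferInstance, inferInstance, rot.ι, rot.f,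
    ⟨rot.ι_cont, rot.ι_inj, rot.f_ord, fun s t => rot.conj (s, t), rot.gen⟩⟩

/-- a reflection -/
noncomputable def r1 : Aut 1 where
  α :=
    { toFun := fun p => (p.1, p.2⁻¹)
      invFun := fun p => (p.1, p.2⁻¹)
      left_inv := fun p => by simp
      right_inv := fun p => by simp
      map_mul' := fun p q => by simp [mul_comm] }
  cont := continuous_fst.prodMk continuous_snd.inv
  ord := by
    ext p <;> simp [pow_succ]

/-- another reflection -/
noncomputable def r2 : Aut 1 where
  α :=
    { toFun := fun p => (p.1 * p.2, p.2⁻¹)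
      invFun := fun p => (p.1 * p.2, p.2⁻¹)
      left_inv := fun p => by simp
      right_inv := fun p => by simp
      map_mul' := fun p q => by simp [mul_comm, mul_left_comm] }
  cont := (continuous_fst.mul continuous_snd).prodMk continuous_snd.inv
  ord := by
    ext p <;> simp [pow_succ]

/-- a compact group contains no element acting on an embedded torus by a shear -/
lemma no_shear {D : Type u} [Group D] [TopologicalSpace D] [IsTopologicalGroup D] [CompactSpace D]
    [T2Space D] (ψ : TT →* D) (hc : Continuous ψ) (hi : Function.Injective ψ) (d : D)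
    (hd : ∀ x y, d * ψ (x, y) * d⁻¹ = ψ (x * y, y)) : False := by
  have hk : ∀ (k : ℕ) (x y : Circle), d ^ k * ψ (x, y) * (d ^ k)⁻¹ = ψ (x * y ^ k, y) := by
    intro k
    induction k with
    | zero => simp
    | succ k ih =>
      intro x y
      have : d ^ (k + 1) * ψ (x, y) * (d ^ (k + 1))⁻¹ =
          d * (d ^ k * ψ (x, y) * (d ^ k)⁻¹) * d⁻¹ := by
        rw [pow_succ']; group
      rw [this, ih, hd, pow_succ, mul_assoc]
  let m : Circle := Circle.exp Real.pi
  have hm : m ≠ 1 := by
    intro h
    have h2 : (m : ℂ) = 1 := by rw [h]; rfl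
    rw [Circle.coe_exp, Complex.exp_pi_mul_I] at h2
    norm_num at h2
  let K : Set (D × Circle) := {p | p.1 * ψ (1, p.2) * p.1⁻¹ = ψ (m, p.2)}
  have hK : IsClosed K := by
    refine isClosed_eq ?_ ?_
    · exact (continuous_fst.mul (hc.comp (continuous_const.prodMk continuous_snd))).mul
        continuous_fst.inv
    · exact hc.comp (continuous_const.prodMk continuous_snd)
  have hK' : IsClosed (Prod.fst '' K) := (hK.isCompact.image continuous_fst).isClosed
  have h1 : (1 : D) ∈ Prod.fst '' K := by
    refine hK'.mem_of_mapClusterPt (mapClusterPt_one_atTop_pow d) ?_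
    filter_upwards [Filter.eventually_ge_atTop 1] with k hk1
    refine ⟨(d ^ k, Circle.exp (Real.pi / k)), ?_, rfl⟩
    show d ^ k * ψ (1, _) * (d ^ k)⁻¹ = ψ (m, _)
    have hk0 : (k : ℝ) ≠ 0 := by
      have : k ≠ 0 := by omega
      exact_mod_cast this
    rw [hk, one_mul, ← Circle.exp_nsmul, nsmul_eq_mul, mul_div_cancel₀ _ hk0]
  obtain ⟨⟨e, y⟩, he, rfl : e = 1⟩ := h1
  have h2 : ψ (1, y) = ψ (m, y) := by simpa [K] using he
  exact hm (congrArg Prod.fst (hi h2)).symm

lemma range_eq {A : Type} [Group A] [TopologicalSpace A] [IsTopologicalGroup A] [CompactSpace A]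
    [T2Space A] {ι : TT →* A} {f : A} (h : Nice ι f) :
    Subgroup.connectedComponentOfOne A = ι.range := by
  have hcl : IsClosed (ι.range : Set A) := (isCompact_range h.cont).isClosed
  have hfin : Finite (A ⧸ ι.range) := by
    refine Finite.of_surjective (fun j : Fin 4 => ((f ^ (j : ℕ))⁻¹ : A) : Fin 4 → A ⧸ ι.range) ?_
    intro q
    obtain ⟨b, rfl⟩ := QuotientGroup.mk_surjective q
    obtain ⟨x, j, hx⟩ := h.gen b⁻¹
    refine ⟨⟨j % 4, Nat.mod_lt _ (by norm_num)⟩, ?_⟩
    refine QuotientGroup.eq.2 ⟨x⁻¹, ?_⟩
    have hb : b = (ι x * f ^ j)⁻¹ := by rw [← hx, inv_inv]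
    rw [hb, ← pow_eq_pow_mod _ h.four, map_inv]
    group
  have hfi : ι.range.FiniteIndex := Subgroup.finiteIndex_of_finite_quotient
  have hop : IsOpen (ι.range : Set A) := Subgroup.isOpen_of_isClosed_of_finiteIndex _ hcl
  apply le_antisymm
  · exact IsClopen.connectedComponent_subset ⟨hcl, hop⟩ ι.range.one_mem
  · exact (isPreconnected_range h.cont).subset_connectedComponent ι.range.one_mem

theorem neg : NegStmt.{u} := by
  intro A _ _ _ _ _ ι f h hA
  have hr := range_eq h
  let e : Subgroup.connectedComponentOfOne A ≃* TT :=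
    (MulEquiv.subgroupCongr hr).trans (MonoidHom.ofInjective h.inj).symm
  have he : ∀ z, ι (e z) = z := fun z => by
    have := MonoidHom.apply_ofInjective_symm h.inj (MulEquiv.subgroupCongr hr z)
    exact this
  have hec : Continuous e := by
    refine (h.cont.isClosedEmbedding h.inj).isInducing.continuous_iff.2 ?_
    have : ι ∘ e = Subtype.val := funext he
    rw [this]
    exact continuous_subtype_val
  let up : ∀ a : Aut 1, TT →* ULift.{u} a.G := fun a =>
    (MulEquiv.ulift.symm.toMonoidHom).comp a.ι
  have upc : ∀ a, Continuous (up a) := fun a => continuous_uliftUp.comp a.ι_cont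
  have upi : ∀ a, Function.Injective (up a) := fun a => MulEquiv.ulift.symm.injective.comp a.ι_inj
  have upj : ∀ (a : Aut 1) x, ULift.up a.f * up a x * (ULift.up a.f)⁻¹ = up a (a.α x) :=
    fun a x => congrArg ULift.up (a.conj x)
  obtain ⟨D, _, _, _, _, _, F, G, hFc, hFi, hGc, hGi, hFG⟩ :=
    hA (ULift.{u} r1.G) (ULift.{u} r2.G) ((up r1).comp e.toMonoidHom) ((up r2).comp e.toMonoidHom)
      ((upc r1).comp hec) ((upi r1).comp e.injective) ((upc r2).comp hec)
      ((upi r2).comp e.injective)
  have hFG' : ∀ x, F (up r1 x) = G (up r2 x) := fun x => by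
    simpa using hFG (e.symm x)
  refine no_shear (F.comp (up r1)) (hFc.comp (upc r1)) (hFi.comp (upi r1))
    (F (ULift.up r1.f) * G (ULift.up r2.f)) fun x y => ?_
  have h2 : G (ULift.up r2.f) * F (up r1 (x, y)) * (G (ULift.up r2.f))⁻¹ =
      F (up r1 (x * y, y⁻¹)) := by
    rw [hFG', hFG', ← map_inv, ← map_mul, ← map_mul, upj]
    rfl
  have h1 : F (ULift.up r1.f) * F (up r1 (x * y, y⁻¹)) * (F (ULift.up r1.f))⁻¹ =
      F (up r1 (x * y, y)) := by
    rw [← map_inv, ← map_mul, ← map_mul, upj]
    congr 2
    show ((x * y, y⁻¹⁻¹) : TT) = (x * y, y)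
    rw [inv_inv]
  show _ * F (up r1 (x, y)) * _ = F (up r1 (x * y, y))
  rw [← h1, ← h2]
  group

end Pool.Agent.MP_caba0b_al.H16
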